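import Pool.Agent.PatSturm.Final

/-!
# Classification of the pattern Sturmian sequences

All recurrent double-sided sequences and all recurrent single-sided sequences with pattern complexity
`p^*(n) = 2 n` for all `n ≥ 1`, over any alphabet.
-/

set_option autoImplicit false

namespace Pool.Agent.Results.MP_2825c1_co.PatternSturmian

open Pool.Agent.PatSturm.Statement

/-- A double-sided (respectively single-sided) sequence over an alphabet `A` is recurrent and pattern
Sturmian if and only if, after naming two distinct letters `p` and `q`, it is (respectively it is the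
part at the positive places of) an interval coding of an irrational rotation or an arc-Toeplitz
sequence. -/
theorem result :
    (∀ {A : Type} (x : ℤ → A), (Recurrent x ∧ PatternSturmian x) ↔
      ∃ (p q : A) (X : ℤ → Bool), p ≠ q ∧ (IntervalCoding X ∨ ArcToeplitz X) ∧
        ∀ m : ℤ, x m = if X m = true then p else q) ∧
    (∀ {A : Type} (x : ℕ → A), (Recurrent₁ x ∧ PatternSturmian₁ x) ↔
      ∃ (p q : A) (X : ℤ → Bool), p ≠ q ∧ (IntervalCoding X ∨ ArcToeplitz X) ∧
        ∀ m : ℕ, 1 ≤ m → x m = if X m = true then p else q) :=
  Pool.Agent.PatSturm.Final.full_result Pool.Agent.PatSturm.Final.main_holds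

end Pool.Agent.Results.MP_2825c1_co.PatternSturmian
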